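import Pool.Agent.H74.Tri.Iface
import Pool.Agent.H75.Lv.Lev

set_option autoImplicit false

/-! MP_2e6055, module F5 (helper53), 1: charts.  A chart is a pair of coordinates `X, Y` on the faces
(a symmetry of the square lattice): the steps of `adjF` are `(±1,0), (0,±1), ±(1,-s)`, `s = ±1`. -/

namespace Pool.Agent.H53.Per

open Pool.Agent.H7.UC Pool.Agent.H74.Tri Pool.Agent.H75.Lv

/-- steps in chart coordinates -/
def adC (s a b c d : ℤ) : Prop :=
  (c = a + 1 ∧ d = b) ∨ (c = a - 1 ∧ d = b) ∨ (c = a ∧ d = b + 1) ∨ (c = a ∧ d = b - 1) ∨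
  (c = a + 1 ∧ d = b - s) ∨ (c = a - 1 ∧ d = b + s)

/-- a chart: exchange of the axes, two signs, origin -/
structure Ch where
  sw : Bool
  e1 : ℤ
  e2 : ℤ
  h1 : e1 = 1 ∨ e1 = -1
  h2 : e2 = 1 ∨ e2 = -1
  c : Fc

namespace Ch

variable (C : Ch)

def X (f : Fc) : ℤ := C.e1 * (if C.sw = true then f.2 - C.c.2 else f.1 - C.c.1)
def Y (f : Fc) : ℤ := C.e2 * (if C.sw = true then f.1 - C.c.1 else f.2 - C.c.2)
def pt (i j : ℤ) : Fc :=
  if C.sw = true then (C.c.1 + C.e2 * j, C.c.2 + C.e1 * i) else (C.c.1 + C.e1 * i, C.c.2 + C.e2 * j)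
def s : ℤ := C.e1 * C.e2

theorem hs : C.s = 1 ∨ C.s = -1 := by
  unfold s
  rcases C.h1 with h | h <;> rcases C.h2 with h' | h' <;> rw [h, h'] <;> simp

theorem X_pt (i j : ℤ) : C.X (C.pt i j) = i := by
  unfold X pt
  split_ifs <;> rcases C.h1 with h | h <;> rw [h] <;> simp

theorem Y_pt (i j : ℤ) : C.Y (C.pt i j) = j := by
  unfold Y pt
  split_ifs <;> rcases C.h2 with h | h <;> rw [h] <;> simp

theorem pt_XY (f : Fc) : C.pt (C.X f) (C.Y f) = f := by
  obtain ⟨a, b⟩ := f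
  unfold X Y pt
  split_ifs <;> rcases C.h1 with h | h <;> rcases C.h2 with h' | h' <;> rw [h, h'] <;> simp

theorem ext {f g : Fc} (hX : C.X f = C.X g) (hY : C.Y f = C.Y g) : f = g := by
  rw [← C.pt_XY f, ← C.pt_XY g, hX, hY]

theorem X_c : C.X C.c = 0 := by unfold X; split_ifs <;> simp
theorem Y_c : C.Y C.c = 0 := by unfold Y; split_ifs <;> simp

theorem adj (f g : Fc) : adjF f g ↔ adC C.s (C.X f) (C.Y f) (C.X g) (C.Y g) := by
  rw [adjF_iff]
  obtain ⟨f1, f2⟩ := f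
  obtain ⟨g1, g2⟩ := g
  obtain ⟨sw, e1, e2, h1, h2, c1, c2⟩ := C
  unfold adC X Y s
  cases sw
  · simp only [Bool.false_eq_true, if_false]
    rcases h1 with rfl | rfl <;> rcases h2 with rfl | rfl <;> omega
  · simp only [if_true]
    rcases h1 with rfl | rfl <;> rcases h2 with rfl | rfl <;> omega

/-- unit steps are steps -/
theorem adj_pt (i j i' j' : ℤ) : adjF (C.pt i j) (C.pt i' j') ↔ adC C.s i j i' j' := by
  rw [C.adj, X_pt, X_pt, Y_pt, Y_pt]

theorem king {f g : Fc} (h : adjF f g) : |C.X g - C.X f| ≤ 1 ∧ |C.Y g - C.Y f| ≤ 1 := by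
  rw [C.adj] at h
  unfold adC at h
  rw [abs_le, abs_le]
  rcases C.hs with h' | h' <;> rw [h'] at h <;> omega

theorem mem_Bx (f g : Fc) (r : ℤ) : f ∈ Bx g r ↔ |C.X f - C.X g| ≤ r ∧ |C.Y f - C.Y g| ≤ r := by
  rw [Pool.Agent.H75.Lv.mem_Bx]
  unfold X Y
  split_ifs <;> rcases C.h1 with h | h <;> rcases C.h2 with h' | h' <;> rw [h, h'] <;>
    simp only [abs_le] <;> omega

/-- the chart in which a boundary face of the box is on the right side, in the upper half -/
theorem exists_chart (z0 v x : Fc) (R : ℤ) (hb : |x.1 - v.1| = R ∨ |x.2 - v.2| = R) :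
    ∃ C : Ch, C.c = z0 ∧ C.X x = C.X v + R ∧ 0 ≤ C.Y x := by
  have hsg : ∀ t : ℤ, ∃ e : ℤ, (e = 1 ∨ e = -1) ∧ e * t = |t| := by
    intro t
    rcases le_total 0 t with h | h
    · exact ⟨1, Or.inl rfl, by rw [abs_of_nonneg h, one_mul]⟩
    · exact ⟨-1, Or.inr rfl, by rw [abs_of_nonpos h]; ring⟩
  rcases hb with hb | hb
  · obtain ⟨e1, he1, h1⟩ := hsg (x.1 - v.1)
    obtain ⟨e2, he2, h2⟩ := hsg (x.2 - z0.2)
    refine ⟨⟨false, e1, e2, he1, he2, z0⟩, rfl, ?_, ?_⟩
    · unfold X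
      simp only [Bool.false_eq_true, if_false]
      rw [← hb, ← h1]; ring
    · unfold Y
      simp only [Bool.false_eq_true, if_false]
      rw [h2]; exact abs_nonneg _
  · obtain ⟨e1, he1, h1⟩ := hsg (x.2 - v.2)
    obtain ⟨e2, he2, h2⟩ := hsg (x.1 - z0.1)
    refine ⟨⟨true, e1, e2, he1, he2, z0⟩, rfl, ?_, ?_⟩
    · unfold X
      simp only [if_true]
      rw [← hb, ← h1]; ring
    · unfold Y
      simp only [if_true]
      rw [h2]; exact abs_nonneg _

/-- chart rectangle -/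
def Rc (a b c d : ℤ) : Set Fc := {f | a ≤ C.X f ∧ C.X f ≤ b ∧ c ≤ C.Y f ∧ C.Y f ≤ d}

/-- crossing of the chart rectangle in the `X` direction -/
def HX (S : Set Fc) (a b c d : ℤ) : Prop := ∃ u v, u ∈ S ∧ C.X u = a ∧ c ≤ C.Y u ∧ C.Y u ≤ d ∧
  C.X v = b ∧ c ≤ C.Y v ∧ C.Y v ≤ d ∧ Jn (S ∩ C.Rc a b c d) u v

/-- crossing of the chart rectangle in the `Y` direction -/
def VX (S : Set Fc) (a b c d : ℤ) : Prop := ∃ u v, u ∈ S ∧ C.Y u = c ∧ a ≤ C.X u ∧ C.X u ≤ b ∧
  C.Y v = d ∧ a ≤ C.X v ∧ C.X v ≤ b ∧ Jn (S ∩ C.Rc a b c d) u v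

theorem unit_x {f g : Fc} (h : C.X g = C.X f + 1 ∨ C.X g = C.X f - 1) (h' : C.Y g = C.Y f) :
    adjF f g := by
  rw [C.adj]; unfold adC; omega

theorem unit_y {f g : Fc} (h : C.Y g = C.Y f + 1 ∨ C.Y g = C.Y f - 1) (h' : C.X g = C.X f) :
    adjF f g := by
  rw [C.adj]; unfold adC; omega

/-- straight path in the `X` direction -/
theorem jn_row {S : Set Fc} {i i' j : ℤ} (h : ∀ k, min i i' ≤ k → k ≤ max i i' → C.pt k j ∈ S) :
    Jn S (C.pt i j) (C.pt i' j) := by
  have up : ∀ n : ℕ, ∀ i : ℤ, (∀ k, i ≤ k → k ≤ i + n → C.pt k j ∈ S) →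
      Jn S (C.pt i j) (C.pt (i + n) j) := by
    intro n
    induction n with
    | zero => intro i _; simp only [Nat.cast_zero, add_zero]; exact Jn.refl _
    | succ n ih =>
      intro i h
      refine (ih i fun k hk hk' => h k hk (by push_cast; omega)).step (h _ (by omega) (by push_cast; omega)) ?_
      apply C.unit_x
      · left; rw [X_pt, X_pt]; push_cast; ring
      · rw [Y_pt, Y_pt]
  rcases le_total i i' with hi | hi
  · have := up (i' - i).toNat i (fun k hk hk' => h k (by omega) (by omega))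
    rwa [show i + ((i' - i).toNat : ℤ) = i' by omega] at this
  · have := up (i - i').toNat i' (fun k hk hk' => h k (by omega) (by omega))
    rw [show i' + ((i - i').toNat : ℤ) = i by omega] at this
    exact this.symm (h _ (by omega) (by omega))

/-- straight path in the `Y` direction -/
theorem jn_col {S : Set Fc} {i j j' : ℤ} (h : ∀ k, min j j' ≤ k → k ≤ max j j' → C.pt i k ∈ S) :
    Jn S (C.pt i j) (C.pt i j') := by
  have up : ∀ n : ℕ, ∀ j : ℤ, (∀ k, j ≤ k → k ≤ j + n → C.pt i k ∈ S) →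
      Jn S (C.pt i j) (C.pt i (j + n)) := by
    intro n
    induction n with
    | zero => intro j _; simp only [Nat.cast_zero, add_zero]; exact Jn.refl _
    | succ n ih =>
      intro j h
      refine (ih j fun k hk hk' => h k hk (by push_cast; omega)).step (h _ (by omega) (by push_cast; omega)) ?_
      apply C.unit_y
      · left; rw [Y_pt, Y_pt]; push_cast; ring
      · rw [X_pt, X_pt]
  rcases le_total j j' with hi | hi
  · have := up (j' - j).toNat j (fun k hk hk' => h k (by omega) (by omega))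
    rwa [show j + ((j' - j).toNat : ℤ) = j' by omega] at this
  · have := up (j - j').toNat j' (fun k hk hk' => h k (by omega) (by omega))
    rw [show j' + ((j - j').toNat : ℤ) = j by omega] at this
    exact this.symm (h _ (by omega) (by omega))

/-- a rectangle is connected -/
theorem jn_rect {S : Set Fc} {a b c d : ℤ} (hS : C.Rc a b c d ⊆ S) {f g : Fc}
    (hf : f ∈ C.Rc a b c d) (hg : g ∈ C.Rc a b c d) : Jn S f g := by
  obtain ⟨f1, f2, f3, f4⟩ := hf
  obtain ⟨g1, g2, g3, g4⟩ := hg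
  have e1 : Jn S (C.pt (C.X f) (C.Y f)) (C.pt (C.X g) (C.Y f)) := by
    apply C.jn_row
    intro k hk hk'
    apply hS
    refine ⟨?_, ?_, ?_, ?_⟩ <;> simp only [X_pt, Y_pt] <;> omega
  have e2 : Jn S (C.pt (C.X g) (C.Y f)) (C.pt (C.X g) (C.Y g)) := by
    apply C.jn_col
    intro k hk hk'
    apply hS
    refine ⟨?_, ?_, ?_, ?_⟩ <;> simp only [X_pt, Y_pt] <;> omega
  have := e1.trans e2
  rwa [pt_XY, pt_XY] at this

end Ch

end Pool.Agent.H53.Per
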