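import Pool.Agent.H53.Per.Iface
import Pool.Agent.H55.Lane.Basic
import Pool.Agent.H74.Tri.Geo

set_option autoImplicit false

/-! MP_2e6055, module F5 (helper53), 3: the templates in chart coordinates, closed statements.

Chart centred at `z0` (`C.c = z0`), in which the face `ph p` ahead of the tip is on the right side of
`Bx v R`, `Y (ph p) ≥ 0`.  Parameters of the first template: `t` = width of the lanes, `b = P u`,
`k = Q u`, `e = h u` (end box `Bx z0 e`), `x1 = X v + R = X (ph p)`, `y` = row of the ray.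
Corridor (clockwise in the chart): row `y` to the left, column `b + 10 t` down, row `-b` to the left, column
`-b` up, row `b` to the right, column `b - 10 t` down, row `-2 k` to the left into the end box.
Mouth: row `-k`, columns `b - 11 t .. b + 11 t`. -/

namespace Pool.Agent.H53.Per

open Pool.Agent.H7.UC Pool.Agent.H74.Tri Pool.Agent.H75.Perc Pool.Agent.H75.Lv Pool.Agent.H55.Lane

/-- the strip `s` (chart coordinates) is crossed by faces of `S` -/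
def CrC (C : Ch) (S : Set Fc) (s : Sp) : Prop :=
  if s.hor = true then C.HX S s.x0 s.x1 s.y0 s.y1 else C.VX S s.x0 s.x1 s.y0 s.y1

/-- the faces of the strip in the chart -/
def InC (C : Ch) (s : Sp) (f : Fc) : Prop := s.In (C.X f, C.Y f)

/-- left (lower) lane -/
def L7 (t b k e x1 y : ℤ) : List Sp :=
  [⟨true, b + 10 * t + 1, x1 - 1, y - t, y - 1⟩, ⟨false, b + 10 * t + 1, b + 11 * t, -b - t, y - 1⟩,
   ⟨true, -b - t, b + 11 * t, -b - t, -b - 1⟩, ⟨false, -b - t, -b - 1, -b - t, b + t⟩,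
   ⟨true, -b - t, b - 9 * t, b + 1, b + t⟩, ⟨false, b - 10 * t + 1, b - 9 * t, -2 * k - t, b + t⟩,
   ⟨true, e + 1, b - 9 * t, -2 * k - t, -2 * k - 1⟩]

/-- right lane -/
def R7 (t b k e x1 y : ℤ) : List Sp :=
  [⟨true, b + 9 * t, x1 - 1, y + 1, y + t⟩, ⟨false, b + 9 * t, b + 10 * t - 1, -b + 1, y + t⟩,
   ⟨true, -b + 1, b + 10 * t - 1, -b + 1, -b + t⟩, ⟨false, -b + 1, -b + t, -b + 1, b - 1⟩,
   ⟨true, -b + 1, b - 10 * t - 1, b - t, b - 1⟩, ⟨false, b - 11 * t, b - 10 * t - 1, -2 * k + 1, b - 1⟩,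
   ⟨true, e + 1, b - 10 * t - 1, -2 * k + 1, -2 * k + t⟩]

/-- the corridor (union of these boxes) -/
def K7 (t b k e x1 y : ℤ) : List Sp :=
  [⟨true, b + 9 * t, x1, y - t, y + t⟩, ⟨false, b + 9 * t, b + 11 * t, -b - t, y + t⟩,
   ⟨true, -b - t, b + 11 * t, -b - t, -b + t⟩, ⟨false, -b - t, -b + t, -b - t, b + t⟩,
   ⟨true, -b - t, b - 9 * t, b - t, b + t⟩, ⟨false, b - 11 * t, b - 9 * t, -2 * k - t, b + t⟩,
   ⟨true, e + 1, b - 9 * t, -2 * k - t, -2 * k + t⟩]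

/-- the conditions on the numbers: `V1, V2` = chart coordinates of `v`, `x2 = Y (ph p)` -/
structure Num7 (t b k e R V1 V2 x1 x2 y : ℤ) : Prop where
  t2 : 2 ≤ t
  tk : 100 * t ≤ k
  ke : 4 * k ≤ e
  eb : 8 * e ≤ b
  bR : R = 4 * b
  hv1 : |V1| ≤ e
  hv2 : |V2| ≤ e
  hx1 : x1 = V1 + R
  hx2 : |x2 - V2| ≤ R
  hx0 : 0 ≤ x2
  hy0 : 0 ≤ y
  hy1 : |x2 - y| ≤ 2 * t
  hy2 : |y - V2| + t < R

/-- the whole situation for the first template -/
structure Sit7 (C : Ch) (U : Finset Fc) (ω : Fc → Bool) (p : Pos) (v z0 : Fc) (R t b k e y : ℤ) : Prop where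
  ent : Ent C U ω p v R t y
  c : C.c = z0
  num : Num7 t b k e R (C.X v) (C.Y v) (C.X (ph p)) (C.Y (ph p)) y

/-- the outer region: off the corridor, the end box and the ball around the face ahead -/
def Out7 (C : Ch) (p : Pos) (v z0 : Fc) (R t b k e y : ℤ) : Set Fc :=
  {f | f ∈ Bx v R ∧ f ∉ Bx (ph p) (40 * t) ∧ f ∉ Bx z0 e ∧
    ∀ s ∈ K7 t b k e (C.X (ph p)) y, ¬ InC C s f}

/-- the mouth: the part of the row `-k` between the two strips (and through them) -/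
def M7 (C : Ch) (t b k : ℤ) : Set Fc := {f | C.Y f = -k ∧ b - 11 * t ≤ C.X f ∧ C.X f ≤ b + 11 * t}

/-- OUT7: (b) the outer region is connected; (c) its faces on the boundary layer of the box are joined,
in the outer region off the mouth, to the face above the middle of the mouth; (d) the face below the
middle of the mouth is joined to `z0` in the outer region and the end box, off the mouth and off the
balls of radius `e / 4` around the possible arrival faces `x` of the end box. -/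
def OUT7 : Prop := ∀ (C : Ch) (U : Finset Fc) (ω : Fc → Bool) (p : Pos) (v z0 : Fc) (R t b k e y : ℤ),
  Sit7 C U ω p v z0 R t b k e y →
  (∀ i j, b - 9 * t < i → i < b + 9 * t → -k - t ≤ j → j ≤ -k + t →
    C.pt i j ∈ Out7 C p v z0 R t b k e y) ∧
  (∀ f ∈ Out7 C p v z0 R t b k e y, ∀ g ∈ Out7 C p v z0 R t b k e y,
    Jn (Out7 C p v z0 R t b k e y) f g) ∧
  (∀ f ∈ Out7 C p v z0 R t b k e y, (|C.X f - C.X v| = R ∨ |C.Y f - C.Y v| = R) →
    Jn (Out7 C p v z0 R t b k e y \ M7 C t b k) (C.pt b (-k + 1)) f) ∧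
  Jn {f | (f ∈ Out7 C p v z0 R t b k e y ∨ f ∈ Bx z0 e) ∧ f ∉ M7 C t b k ∧
    ∀ x, C.X x = e → -2 * k - 2 * t ≤ C.Y x → C.Y x ≤ -2 * k + 2 * t → f ∉ Bx x (e / 4)}
    (C.pt b (-k - 1)) z0

/-- the event of the first template: ray events and crossings of all strips -/
def Ev7 (C : Ch) (U : Finset Fc) (p : Pos) (t b k e y : ℤ) (c : Bool) (ω : Fc → Bool) : Prop :=
  RayE C U p t y (-1) c ω ∧ RayE C U p t y 1 (!c) ω ∧
  (∀ s ∈ L7 t b k e (C.X (ph p)) y, CrC C {f | ω f = c} s) ∧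
  ∀ s ∈ R7 t b k e (C.X (ph p)) y, CrC C {f | ω f = !c} s

/-- EVP7: the probability of the event. -/
def EVP7 : Prop := ∀ K : ℕ, ∃ pK : ℝ, 0 < pK ∧ ∃ t0 : ℤ, ∀ (C : Ch) (U : Finset Fc) (ω : Fc → Bool)
  (p : Pos) (v z0 : Fc) (R t b k e y : ℤ), Sit7 C U ω p v z0 R t b k e y → t0 ≤ t → R ≤ K * t →
  ∀ c : Bool, pK ≤ Pr U (fun w => Ev7 C U p t b k e y c (mixc U w ω))

/-- COR7: on the event, with the colour `c` of T3B, there are corridor data; `β`, `α` are in the ball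
around the face ahead and in the lanes; the second vertex `(f2, a2, g2)` is seen from the outer region. -/
def COR7 : Prop := ∀ (C : Ch) (U : Finset Fc) (ω : Fc → Bool) (p : Pos) (v z0 : Fc) (R t b k e y : ℤ),
  Sit7 C U ω p v z0 R t b k e y → ∀ c : Bool,
  (∀ (e' : ℤ) (P : Set Fc) (f : Fc), (e' = 1 ∨ e' = -1) →
    P ⊆ Anr C U p t y → sbase C p t y e' ∈ P → Jn P (sbase C p t y e') f → (∃ g, g ∉ U ∧ adjF f g) →
    ∃ f' ∈ P, ∃ g, g ∉ U ∧ adjF f' g ∧ (e' = -1 → ω g = c) ∧ (e' = 1 → ω g = !c)) →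
  Disjoint (Sect C U p t y 1) (Sect C U p t y (-1)) →
  Ev7 C U p t b k e y c ω →
  ∃ (β α : Finset Fc) (f1 a1 g1 : Fc), Cor U ω p c β α (Bx z0 e) f1 a1 g1 ∧
    (∀ f ∈ β, f ∈ Bx (ph p) (40 * t) ∨ ∃ s ∈ L7 t b k e (C.X (ph p)) y, InC C s f) ∧
    (∀ f ∈ α, f ∈ Bx (ph p) (40 * t) ∨ ∃ s ∈ R7 t b k e (C.X (ph p)) y, InC C s f) ∧
    C.X f1 = e + 1 ∧
    ∃ f2 a2 g2, a2 ∈ α ∧ g2 ∈ Bx z0 e ∧ Tri3 f2 a2 g2 ∧ f2 ≠ f1 ∧ f2 ∈ U \ (β ∪ α ∪ Bx z0 e) ∧
      ∀ f ∈ Out7 C p v z0 R t b k e y, Jn (↑(U \ (β ∪ α ∪ Bx z0 e)) : Set Fc) f2 f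

/-- RUN7: a connected set `Rv` of faces of `U` from the face ahead to a face next to the end box, in the
box only in the ball and in the corridor, contains faces of the mouth row on both sides; the first ones
from the middle bound a run. -/
def RUN7 : Prop := ∀ (C : Ch) (U : Finset Fc) (ω : Fc → Bool) (p : Pos) (v z0 : Fc) (R t b k e y : ℤ),
  Sit7 C U ω p v z0 R t b k e y → ∀ Rv : Set Fc, (∀ f ∈ Rv, f ∈ U) →
  (∀ f ∈ Rv, ∀ g ∈ Rv, Jn Rv f g) → ph p ∈ Rv → (∃ f ∈ Rv, ∃ g ∈ Bx z0 e, adjF f g) →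
  (∀ f ∈ Rv, f ∉ Bx z0 e) → (∀ f ∈ Rv, f ∉ Out7 C p v z0 R t b k e y) →
  ∃ i1 i2 : ℤ, b - 11 * t < i1 ∧ i1 ≤ b ∧ b + 1 ≤ i2 ∧ i2 < b + 11 * t ∧
    C.pt (i1 - 1) (-k) ∈ Rv ∧ C.pt (i2 + 1) (-k) ∈ Rv ∧
    (∀ i, i1 ≤ i → i ≤ i2 → C.pt i (-k) ∉ Rv) ∧
    (∃ f ∈ Rv, (∃ g ∈ Bx z0 e, adjF f g) ∧ C.X f = e + 1 ∧ -2 * k - t ≤ C.Y f ∧ C.Y f ≤ -2 * k + t)

/-- PTH7: from the face above the middle of the mouth a face next to an outer face of any given colour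
is reached in every set `O` which contains the outer region and is closed under steps in `U` off the ball
and off the box (last exit from the box of the path given by `TB`; from OUT7 (c)). -/
def PTH7 : Prop := ∀ (C : Ch) (U : Finset Fc) (ω : Fc → Bool) (p : Pos) (v z0 : Fc) (R t b k e y : ℤ),
  Sit7 C U ω p v z0 R t b k e y → ∀ O : Set Fc, Out7 C p v z0 R t b k e y ⊆ O →
  (∀ f ∈ O, ∀ g ∈ U, adjF f g → g ∉ Bx (ph p) (40 * t) → g ∉ Bx v R → g ∈ O) → ∀ c : Bool,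
  ∃ g x, Jn (O \ M7 C t b k) (C.pt b (-k + 1)) g ∧ x ∉ U ∧ adjF g x ∧ ω x = c

/-! ## The second template (target `Bx v r` inside the end box) -/

/-- left and right lanes: row `y` to the left, column `b` down, row `-b` to the left, column `V1` up -/
def L4 (t b r x1 y V1 V2 : ℤ) : List Sp :=
  [⟨true, b + 1, x1 - 1, y - t, y - 1⟩, ⟨false, b + 1, b + t, -b - t, y - 1⟩,
   ⟨true, V1 - t, b + t, -b - t, -b - 1⟩, ⟨false, V1 - t, V1 - 1, -b - t, V2 - r - 1⟩]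

def R4 (t b r x1 y V1 V2 : ℤ) : List Sp :=
  [⟨true, b - t, x1 - 1, y + 1, y + t⟩, ⟨false, b - t, b - 1, -b + 1, y + t⟩,
   ⟨true, V1 + 1, b - 1, -b + 1, -b + t⟩, ⟨false, V1 + 1, V1 + t, -b + 1, V2 - r - 1⟩]

/-- the conditions: chart centred at the centre `z0` of the fresh box `Bx z0 e`, `b = e / 2`,
target `Bx v r`, `V1, V2` = chart coordinates of `v` -/
structure Sit4 (C : Ch) (U : Finset Fc) (ω : Fc → Bool) (p : Pos) (z0 v : Fc) (e t b r y : ℤ) : Prop where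
  ent : Ent C U ω p z0 e t y
  c : C.c = z0
  t2 : 2 ≤ t
  tr : 10 * t ≤ r
  te : 1000 * t ≤ e
  re : 100 * r ≤ e + 100
  hb : b = e / 2
  hv1 : |C.X v| ≤ e / 8
  hv2 : |C.Y v| ≤ e / 8
  hx0 : 0 ≤ C.Y (ph p)
  hy0 : 0 ≤ y

/-- VIS4: the target is visited with probability bounded below. -/
def VIS4 : Prop := ∀ K : ℕ, ∃ s3 : ℝ, 0 < s3 ∧ ∃ t0 : ℤ, ∀ (C : Ch) (U : Finset Fc) (ω : Fc → Bool)
  (p : Pos) (z0 v : Fc) (e t b r y : ℤ), Sit4 C U ω p z0 v e t b r y → t0 ≤ t → e ≤ K * t →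
  s3 ≤ vis U ω (Bx v r)

end Pool.Agent.H53.Per
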