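import Pool.Agent.H53.Per.Chart

set_option autoImplicit false

/-! MP_2e6055, module F5 (helper53), 2: closed statements.

Colours: `true` = black.  `mixc U w col` (helper75) = random `w` on `U`, `col` elsewhere.
Lengths: `t` = width of the lanes, `R` = radius of the fresh box `Bx v R ⊆ U`, `S = 40 t` = radius of the
ball around the face `ph p` ahead of the tip, `E` = end set. -/

namespace Pool.Agent.H53.Per

open Pool.Agent.H7.UC Pool.Agent.H74.Tri Pool.Agent.H75.Perc Pool.Agent.H75.Lv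

/-! ## CONF: abstract corridor (no geometry) -/

/-- three mutually adjacent faces -/
def Tri3 (f g h : Fc) : Prop := adjF f g ∧ adjF f h ∧ adjF g h

/-- TRI: three mutually adjacent faces are the faces of a vertex. -/
def TRI : Prop := ∀ f g h : Fc, Tri3 f g h → ∃ q : Pos, ph q = f ∧
  ((pl q = g ∧ pr q = h) ∨ (pl q = h ∧ pr q = g))

/-- corridor data: `β` of colour `c`, attached to outer faces of colour `c` and to the end set `E`; `α` of
the other colour, attached to outer faces of its colour; `(f1, a1, g1)` a vertex with `f1` joined to the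
face ahead of the tip off `α, β, E`, `a1 ∈ α`, `g1 ∈ E`. -/
structure Cor (U : Finset Fc) (ω : Fc → Bool) (p : Pos) (c : Bool) (β α E : Finset Fc)
    (f1 a1 g1 : Fc) : Prop where
  st : St U ω
  tip : IsTip U ω p
  bU : β ⊆ U
  aU : α ⊆ U
  eU : E ⊆ U
  ba : Disjoint β α
  be : Disjoint β E
  ae : Disjoint α E
  colb : ∀ f ∈ β, ω f = c
  cola : ∀ f ∈ α, ω f = !c
  conb : ∀ f ∈ β, ∀ g ∈ β, Jn (↑β : Set Fc) f g
  cona : ∀ f ∈ α, ∀ g ∈ α, Jn (↑α : Set Fc) f g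
  cone : ∀ f ∈ E, ∀ g ∈ E, Jn (↑E : Set Fc) f g
  bout : ∃ f ∈ β, ∃ x, x ∉ U ∧ adjF f x ∧ ω x = c
  aout : ∃ f ∈ α, ∃ x, x ∉ U ∧ adjF f x ∧ ω x = !c
  bend : ∃ f ∈ β, ∃ g ∈ E, adjF f g
  ha : a1 ∈ α
  hg : g1 ∈ E
  tri : Tri3 f1 a1 g1
  hf : Jn (↑(U \ (β ∪ α ∪ E)) : Set Fc) (ph p) f1
  pU : ph p ∈ U \ (β ∪ α ∪ E)

/-- CONF1: the interface visits `E`; before that it only touches `Z`, `α`, `β` in `U`, where `Z` is the
component of the face ahead of the tip in `U` minus `α, β, E`; at the first visit it comes from `Z`. -/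
def CONF1 : Prop := ∀ (U : Finset Fc) (ω : Fc → Bool) (p : Pos) (c : Bool) (β α E : Finset Fc)
  (f1 a1 g1 : Fc), Cor U ω p c β α E f1 a1 g1 →
  ∃ i, First U ω p E i ∧ (∀ f ∈ U, f ∈ Rev ω p i →
    f ∈ comp (U \ (β ∪ α ∪ E)) (ph p) ∨ f ∈ β ∨ f ∈ α) ∧
  ∃ f ∈ comp (U \ (β ∪ α ∪ E)) (ph p), f ∈ Rev ω p i ∧ adjF f (ph (orb ω p i))

/-- CONF2: a connected set `O` off `α, β, E` which contains the first face `f2` of another vertex
`(f2, a2, g2)`, `a2 ∈ α`, `g2 ∈ E`, `f2 ≠ f1`, is disjoint from `Z`. -/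
def CONF2 : Prop := ∀ (U : Finset Fc) (ω : Fc → Bool) (p : Pos) (c : Bool) (β α E : Finset Fc)
  (f1 a1 g1 : Fc), Cor U ω p c β α E f1 a1 g1 →
  ∀ f2 a2 g2, a2 ∈ α → g2 ∈ E → Tri3 f2 a2 g2 → f2 ∈ U \ (β ∪ α ∪ E) → f2 ≠ f1 →
  f2 ∉ comp (U \ (β ∪ α ∪ E)) (ph p)

/-! ## TB: both colours are visible outside a small ball around the tip -/

/-- the component of `v` in `U` minus `B` touches outer faces of both colours -/
def TB (U : Finset Fc) (ω : Fc → Bool) (v : Fc) (B : Finset Fc) : Prop := ∀ c : Bool, ∃ f g,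
  Jn {a | a ∈ U ∧ a ∉ B} v f ∧ g ∉ U ∧ adjF f g ∧ ω g = c

/-- TBP: from the visit probability (CEN) to `TB` (one-arm bound, NE). -/
def TBP : Prop := ∀ c1 : ℝ, 0 < c1 → ∃ M : ℤ, 100 ≤ M ∧ ∀ (U : Finset Fc) (col : Fc → Bool) (p : Pos)
  (v : Fc) (R S : ℤ), St U col → IsTip U col p → ph p ∈ Bx v R → Bx v R ⊆ U → M ≤ S → M * S ≤ R →
  c1 ≤ vis U col (Bx v (R / 2)) → TB U col v (Bx (ph p) S)

/-! ## T3: the sectors at the tip -/

/-- entry data in the chart `C`: fresh box `Bx v R ⊆ U`, face ahead on its right side, row `y` of the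
ray, at distance at most `2 t` from the face ahead and more than `t` from the upper and lower sides. -/
structure Ent (C : Ch) (U : Finset Fc) (ω : Fc → Bool) (p : Pos) (v : Fc) (R t y : ℤ) : Prop where
  st : St U ω
  tip : IsTip U ω p
  box : Bx v R ⊆ U
  t1 : 1 ≤ t
  tR : 100 * t ≤ R
  x : C.X (ph p) = C.X v + R
  y1 : |C.Y (ph p) - C.Y v| ≤ R
  y2 : |C.Y (ph p) - y| ≤ 2 * t
  y3 : |y - C.Y v| + t < R
  tb : TB U ω v (Bx (ph p) (40 * t))

/-- the annulus around the face ahead, in `U`, without the ray (row `y` to the left of the tip) -/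
def Anr (C : Ch) (U : Finset Fc) (p : Pos) (t y : ℤ) : Set Fc :=
  {f | f ∈ U ∧ f ∈ Bx (ph p) (40 * t) ∧ f ∉ Bx (ph p) (10 * t - 1) ∧
    ¬ (C.Y f = y ∧ C.X f ≤ C.X (ph p))}

/-- base face of the sector above (`e = 1`) or below (`e = -1`) the ray -/
def sbase (C : Ch) (p : Pos) (t y e : ℤ) : Fc := C.pt (C.X (ph p) - 10 * t) (y + e)

/-- the sector -/
def Sect (C : Ch) (U : Finset Fc) (p : Pos) (t y e : ℤ) : Set Fc :=
  {f | f ∈ Anr C U p t y ∧ Jn (Anr C U p t y) (sbase C p t y e) f}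

/-- T3A: the two sectors are disjoint. -/
def T3A : Prop := ∀ (C : Ch) (U : Finset Fc) (ω : Fc → Bool) (p : Pos) (v : Fc) (R t y : ℤ),
  Ent C U ω p v R t y → Disjoint (Sect C U p t y 1) (Sect C U p t y (-1))

/-- T3B: there is a colour `c` such that every path in the annulus minus the ray from the base face
below the ray to a face next to the outside touches an outer face of colour `c`, and every such path from
the base face above touches an outer face of the other colour. -/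
def T3B : Prop := ∀ (C : Ch) (U : Finset Fc) (ω : Fc → Bool) (p : Pos) (v : Fc) (R t y : ℤ),
  Ent C U ω p v R t y → ∃ c : Bool, ∀ (e : ℤ) (P : Set Fc) (f : Fc), (e = 1 ∨ e = -1) →
  P ⊆ Anr C U p t y → sbase C p t y e ∈ P → Jn P (sbase C p t y e) f → (∃ g, g ∉ U ∧ adjF f g) →
  ∃ f' ∈ P, ∃ g, g ∉ U ∧ adjF f' g ∧ (e = -1 → ω g = c) ∧ (e = 1 → ω g = !c)

/-- the ray event: a path of colour `c` in the sector from the row `y + e` (next to the ray) to a face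
next to the outside -/
def RayE (C : Ch) (U : Finset Fc) (p : Pos) (t y e : ℤ) (c : Bool) (ω : Fc → Bool) : Prop :=
  ∃ f g, f ∈ Sect C U p t y e ∧ C.Y f = y + e ∧ C.X (ph p) - 40 * t ≤ C.X f ∧
    C.X f ≤ C.X (ph p) - 10 * t ∧ ω f = c ∧
    Jn {a | a ∈ Sect C U p t y e ∧ ω a = c} f g ∧ ∃ h, h ∉ U ∧ adjF g h

/-- T3C: the ray events have positive probability (ring around the face ahead, colour `c` off `U`). -/
def T3C : Prop := ∃ c0 : ℝ, 0 < c0 ∧ ∃ t0 : ℤ, ∀ (C : Ch) (U : Finset Fc) (ω : Fc → Bool) (p : Pos)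
  (v : Fc) (R t y : ℤ), Ent C U ω p v R t y → t0 ≤ t → ∀ (e : ℤ) (c : Bool), (e = 1 ∨ e = -1) →
  c0 ≤ Pr U (fun w => RayE C U p t y e c (mixc U w ω))

/-! ## LOOP (geometry in, topology out) -/

/-- LOOP: `Rv` = revealed faces (connected), in a domain `H` (`H = U`, or a big box); the run
`i1 .. i2` of the row `j` (chart coordinates) lies between two faces of `Rv`; the common neighbour
above its step `i, i + 1` is joined off `Rv` and the run to a face outside `H`, the one below to `z0`.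
Then what is joined to `z0` off `Rv` and the run is in `H` with its neighbours. -/
def LOOP : Prop := ∀ (C : Ch) (H : Finset Fc) (Rv : Set Fc) (i1 i2 i j : ℤ) (z0 : Fc), IsDom H →
  (∀ f ∈ Rv, f ∈ H) → (∀ f ∈ Rv, ∀ g ∈ Rv, Jn Rv f g) → i1 ≤ i → i < i2 →
  C.pt (i1 - 1) j ∈ Rv → C.pt (i2 + 1) j ∈ Rv → (∀ k, i1 ≤ k → k ≤ i2 → C.pt k j ∈ H) →
  (∀ k, i1 ≤ k → k ≤ i2 → C.pt k j ∉ Rv) →
  (∀ f, C.Y f = j + 1 → (C.X f = i ∨ C.X f = i + 1) → f ∉ Rv ∧
    ∃ g, g ∉ H ∧ Jn {a | a ∉ Rv ∧ ¬ (C.Y a = j ∧ i1 ≤ C.X a ∧ C.X a ≤ i2)} f g) →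
  (∀ f, C.Y f = j - 1 → (C.X f = i ∨ C.X f = i + 1) → f ∉ Rv ∧
    Jn {a | a ∉ Rv ∧ ¬ (C.Y a = j ∧ i1 ≤ C.X a ∧ C.X a ≤ i2)} f z0) →
  ∀ f g, Jn {a | a ∉ Rv ∧ ¬ (C.Y a = j ∧ i1 ≤ C.X a ∧ C.X a ≤ i2)} z0 f → adjF f g → g ∈ H

/-- REVC: the revealed faces of `U` are connected. -/
def REVC : Prop := ∀ (U : Finset Fc) (ω : Fc → Bool) (p : Pos) (i : ℕ), IsTip U ω p → Ins U ω p i →
  ∀ f g, f ∈ U → g ∈ U → f ∈ Rev ω p i → g ∈ Rev ω p i → Jn {a | a ∈ U ∧ a ∈ Rev ω p i} f g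

end Pool.Agent.H53.Per
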