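import Pool.Agent.H53.Per.Det3
import Pool.Agent.H10.F5.Cenv
import Pool.Agent.H93.SM.Final
import Pool.Agent.H98.Per.Cor4
import Pool.Agent.H74.F5.Visd2
import Pool.Agent.H20.Per.Tbp
import Pool.Agent.H55.Per.Cor7
import Pool.Agent.H15.F5.Cht
import Pool.Agent.H29.Per.Out7
import Pool.Agent.H52.Tri.Evp

set_option autoImplicit false

/-! MP_2e6055, module F5 (helper53), 7: F5, no hypotheses. -/

namespace Pool.Agent.H53.Per

open Pool.Agent.H7.UC Pool.Agent.H74.Tri Pool.Agent.H75.Perc Pool.Agent.H75.Lv Pool.Agent.H55.Lane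

/-- helper52's `evr` in helper87's form -/
theorem evr87 : Pool.Agent.H87.F5.EVR := by
  intro K
  obtain ⟨pK, hpK, t0, H⟩ := Pool.Agent.H52.Tri.evr K
  refine ⟨pK, hpK, t0, ?_⟩
  intro C U ω p v z0 R t b k e y hS ht hR c
  obtain ⟨t2, tk, ke, eb, bR, -⟩ := hS.num
  have eR : ((R.toNat : ℕ) : ℤ) = R := Int.toNat_of_nonneg (by omega)
  have h := H C U ω p v z0 R t b k e y hS ht hR R.toNat eR c
  have e1 : (2 * R).toNat = 2 * R.toNat := by omega
  have e2 : (4 * R - 1).toNat = 4 * R.toNat - 1 := by omega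
  have e3 : (4 * R).toNat = 4 * R.toNat := by omega
  have e4 : (8 * R).toNat = 8 * R.toNat := by omega
  unfold Pool.Agent.H87.F5.Rg7
  rw [e1, e2, e3, e4]
  exact h

/-- **F5** -/
theorem f5_final : F5 :=
  Pool.Agent.H87.F5.f5
    (det7_fin (Pool.Agent.H55.Per.cor7 Pool.Agent.H29.Per.out7) Pool.Agent.H29.Per.out7) evr87
    (Pool.Agent.H74.F5.visd' (Pool.Agent.H98.Per.vis4 Pool.Agent.H52.Tri.evp4
      Pool.Agent.H7.F5.conf1))
    (Pool.Agent.H10.F5.cenv Pool.Agent.H93.SM.cen_final) Pool.Agent.H15.F5.cht7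
    Pool.Agent.H20.Per.tbp Pool.Agent.H98.Per.t3B

end Pool.Agent.H53.Per
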