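import Pool.Agent.H53.Per.Tmp
import Pool.Agent.H98.Per.T3b
import Pool.Agent.H7.F5.Loop
import Pool.Agent.H50.Per.Revc
import Pool.Agent.H11.Lv.RST
import Pool.Agent.H12.Inst.EVC2
import Pool.Agent.H58.TA.Rings

set_option autoImplicit false

/-! MP_2e6055, module F5 (helper53), 4: the deterministic part of F5. -/

namespace Pool.Agent.H53.Per

open Pool.Agent.H7.UC Pool.Agent.H74.Tri Pool.Agent.H75.Perc Pool.Agent.H75.Lv Pool.Agent.H55.Lane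
open Pool.Agent.H52.Tri (AX)

/-- the two rings around the box: black in `2R .. 4R-1`, white in `4R .. 8R`, faces off `U` free -/
def Rgs (U : Finset Fc) (v : Fc) (R : ℤ) (ω : Fc → Bool) : Prop :=
  AX v (2 * R).toNat (4 * R - 1).toNat (fun z => z ∈ U → ω z = true) ∧
  AX v (4 * R).toNat (8 * R).toNat (fun z => z ∈ U → ω z = false)

theorem jn_and {S T : Set Fc} {f g : Fc} (h : Jn S f g) (hT : ∀ a, Jn S f a → a ∈ T) :
    Jn {a | a ∈ S ∧ a ∈ T} f g := by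
  induction h with
  | refl => exact Jn.refl _
  | tail h1 h2 ih => exact ih.step ⟨h2.1, hT _ (Jn.step h1 h2.1 h2.2)⟩ h2.2

/-- faces of the strips of the template are in the box -/
theorem strip_box {C : Ch} {U : Finset Fc} {ω : Fc → Bool} {p : Pos} {v z0 : Fc} {R t b k e y : ℤ}
    (hS : Sit7 C U ω p v z0 R t b k e y) {f : Fc}
    (h : (∃ s ∈ L7 t b k e (C.X (ph p)) y, InC C s f) ∨ (∃ s ∈ R7 t b k e (C.X (ph p)) y, InC C s f)) :
    f ∈ Bx v R := by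
  obtain ⟨t2, tk, ke, eb, bR, hv1, hv2, hx1, hx2, hx0, hy0, hy1, hy2⟩ := hS.num
  rw [C.mem_Bx]
  rw [abs_le] at hv1 hv2 hx2 hy1 ⊢
  rw [abs_le]
  have hy2' := abs_lt.1 (show |y - C.Y v| < R - t by omega)
  simp only [L7, R7, InC, Sp.In, List.mem_cons, List.not_mem_nil, or_false, exists_eq_or_imp,
    exists_eq_left] at h
  rcases h with h | h <;> rcases h with h | h | h | h | h | h | h <;> omega

theorem end_box {C : Ch} {U : Finset Fc} {ω : Fc → Bool} {p : Pos} {v z0 : Fc} {R t b k e y : ℤ}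
    (hS : Sit7 C U ω p v z0 R t b k e y) {f : Fc} (h : f ∈ Bx z0 e) : f ∈ Bx v R := by
  obtain ⟨t2, tk, ke, eb, bR, hv1, hv2, hx1, hx2, hx0, hy0, hy1, hy2⟩ := hS.num
  rw [C.mem_Bx] at h ⊢
  rw [← hS.c, C.X_c, C.Y_c] at h
  simp only [abs_le] at *
  omega

/-- a face next to the end box, off it and off the outer region -/
theorem adj_end {C : Ch} {U : Finset Fc} {ω : Fc → Bool} {p : Pos} {v z0 : Fc} {R t b k e y : ℤ}
    (hS : Sit7 C U ω p v z0 R t b k e y) {f g : Fc} (hf : f ∉ Bx z0 e)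
    (hfo : f ∉ Out7 C p v z0 R t b k e y) (hg : g ∈ Bx z0 e) (hfg : adjF f g) :
    C.X f = e + 1 ∧ -2 * k - t ≤ C.Y f ∧ C.Y f ≤ -2 * k + t := by
  obtain ⟨t2, tk, ke, eb, bR, hv1, hv2, hx1, hx2, hx0, hy0, hy1, hy2⟩ := hS.num
  have hk := C.king hfg
  rw [C.mem_Bx, ← hS.c, C.X_c, C.Y_c] at hg hf
  have hb : f ∈ Bx v R := by
    rw [C.mem_Bx]
    simp only [abs_le] at *
    omega
  have hball : f ∉ Bx (ph p) (40 * t) := by
    rw [C.mem_Bx]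
    simp only [abs_le] at *
    omega
  have hK : ∃ s ∈ K7 t b k e (C.X (ph p)) y, InC C s f := by
    by_contra hcon
    push Not at hcon
    apply hfo
    refine ⟨hb, hball, ?_, hcon⟩
    rw [C.mem_Bx, ← hS.c, C.X_c, C.Y_c]
    exact hf
  simp only [K7, InC, Sp.In, List.mem_cons, List.not_mem_nil, or_false, exists_eq_or_imp,
    exists_eq_left] at hK
  simp only [abs_le] at *
  rcases hK with h | h | h | h | h | h | h <;> omega

/-- result of the deterministic part -/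
structure Res7 (C : Ch) (U : Finset Fc) (ω : Fc → Bool) (p : Pos) (v z0 : Fc) (R t b k e : ℤ)
    (i : ℕ) : Prop where
  first : First U ω p (Bx z0 e) i
  st : St (unx U ω p i z0) ω
  tip : IsTip (unx U ω p i z0) ω (orb ω p i)
  box : Bx z0 e ⊆ unx U ω p i z0
  xe : ph (orb ω p i) ∈ Bx z0 e
  xX : C.X (ph (orb ω p i)) = e
  tb : TB (unx U ω p i z0) ω z0 (Bx (ph (orb ω p i)) (e / 4))
  run : ∃ m : Set Fc, (∀ f ∈ m, f ∈ unx U ω p i z0) ∧ (∀ f ∈ m, ∀ g ∈ m, Jn m f g) ∧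
    (∀ f ∈ m, C.Y f = -k ∧ b - 11 * t ≤ C.X f ∧ C.X f ≤ b + 11 * t) ∧
    (∃ g ∈ m, ∃ x, x ∉ unx U ω p i z0 ∧ adjF g x ∧ ω x = true) ∧
    ∀ f, Jn {a | a ∈ unx U ω p i z0 ∧ a ∉ m} z0 f → f ∈ Bx v (8 * R)

/-- the conclusion of T3B for one state -/
def T3c (C : Ch) (U : Finset Fc) (ω : Fc → Bool) (p : Pos) (t y : ℤ) (c : Bool) : Prop :=
  ∀ (e : ℤ) (P : Set Fc) (f : Fc), (e = 1 ∨ e = -1) →
  P ⊆ Anr C U p t y → sbase C p t y e ∈ P → Jn P (sbase C p t y e) f → (∃ g, g ∉ U ∧ adjF f g) →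
  ∃ f' ∈ P, ∃ g, g ∉ U ∧ adjF f' g ∧ (e = -1 → ω g = c) ∧ (e = 1 → ω g = !c)

theorem far_face (U H : Finset Fc) : ∃ g : Fc, g ∉ U ∧ g ∉ H := by
  classical
  obtain ⟨M, hM⟩ : ∃ M : ℤ, ∀ f ∈ U ∪ H, f.1 < M := by
    refine ⟨∑ f ∈ U ∪ H, |f.1| + 1, ?_⟩
    intro f hf
    have h1 : |f.1| ≤ ∑ f ∈ U ∪ H, |f.1| :=
      Finset.single_le_sum (f := fun f : Fc => |f.1|) (fun _ _ => abs_nonneg _) hf
    have h2 := le_abs_self f.1
    omega
  refine ⟨(M, 0), fun h => ?_, fun h => ?_⟩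
  · have := hM _ (Finset.mem_union_left _ h); simp at this
  · have := hM _ (Finset.mem_union_right _ h); simp at this

theorem det7 (hc1 : CONF1) (hc2 : CONF2) (hcor : COR7) (hout : OUT7) (hpth : PTH7) (hrun : RUN7)
    {C : Ch} {U : Finset Fc} {ω : Fc → Bool} {p : Pos} {v z0 : Fc} {R t b k e y : ℤ}
    (hS : Sit7 C U ω p v z0 R t b k e y) {c : Bool} (hT : T3c C U ω p t y c)
    (hE : Ev7 C U p t b k e y c ω) (hR : Rgs U v R ω) :
    ∃ i, Res7 C U ω p v z0 R t b k e i := by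
  classical
  obtain ⟨t2, tk, ke, eb, bR, hv1, hv2, hx1, hx2, hx0, hy0, hy1, hy2⟩ := hS.num
  have hUdom := hS.ent.st.dom
  obtain ⟨hO1, hO2, hO3, hO4⟩ := hout C U ω p v z0 R t b k e y hS
  obtain ⟨β, α, f1, a1, g1, hCor, hβ, hα, hf1, f2, a2, g2, ha2, hg2, htri2, hf12, hf2, hf2o⟩ :=
    hcor C U ω p v z0 R t b k e y hS c hT
      (Pool.Agent.H98.Per.t3A C U ω p v R t y hS.ent) hE
  obtain ⟨i, hfirst, hrev, f3, hf3Z, hf3R, hf3a⟩ := hc1 U ω p c β α _ f1 a1 g1 hCor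
  have hf2Z := hc2 U ω p c β α _ f1 a1 g1 hCor f2 a2 g2 ha2 hg2 htri2 hf2 hf12
  set K : Finset Fc := β ∪ α ∪ Bx z0 e with hK
  set O : Set Fc := {f | f ∈ U \ K ∧ Jn (↑(U \ K) : Set Fc) f2 f} with hO
  have hOK : ∀ f ∈ O, f ∈ U ∧ f ∉ β ∧ f ∉ α ∧ f ∉ Bx z0 e := by
    rintro f ⟨hf, -⟩
    rw [hK, Finset.mem_sdiff, Finset.mem_union, Finset.mem_union] at hf
    tauto
  have hOutO : Out7 C p v z0 R t b k e y ⊆ O := by
    intro f hf
    have h := hf2o f hf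
    have h' := Jn.mem h (by exact_mod_cast hf2)
    exact ⟨by exact_mod_cast h', h⟩
  have hOZ : ∀ f ∈ O, f ∉ comp (U \ K) (ph p) := by
    intro f hf hfZ
    apply hf2Z
    refine mem_comp.2 ⟨hf2, ?_⟩
    have h1 := (mem_comp.1 hfZ).2
    exact h1.trans (hf.2.symm (by exact_mod_cast hf2))
  have hOrev : ∀ f ∈ O, f ∉ Rev ω p i := by
    intro f hf hfr
    obtain ⟨h1, h2, h3, h4⟩ := hOK f hf
    rcases hrev f h1 hfr with h | h | h
    · exact hOZ f hf h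
    · exact h2 h
    · exact h3 h
  -- the revealed faces
  have hIns : Ins U ω p i := by obtain ⟨⟨_, _, h⟩, _⟩ := hfirst; exact h.1
  have hxE : ph (orb ω p i) ∈ Bx z0 e := by
    obtain ⟨⟨f, hf, h⟩, _⟩ := hfirst
    rw [h.2.1]; exact hf
  have hxR : ph (orb ω p i) ∉ Rev ω p i := by
    obtain ⟨⟨f, hf, h⟩, _⟩ := hfirst
    rw [h.2.1]; exact h.2.2.2
  set Rv : Set Fc := {a | a ∈ U ∧ a ∈ Rev ω p i} with hRv
  have hRvc : ∀ f ∈ Rv, ∀ g ∈ Rv, Jn Rv f g := fun f hf g hg =>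
    revc U ω p i hS.ent.tip hIns f g hf.1 hg.1 hf.2 hg.2
  have hpE : ph p ∉ Bx z0 e := by
    have := hCor.pU
    rw [Finset.mem_sdiff, Finset.mem_union, Finset.mem_union] at this
    tauto
  have hpRv : ph p ∈ Rv := by
    refine ⟨hS.ent.tip.1, ?_⟩
    rcases Nat.eq_zero_or_pos i with h | h
    · subst h; exact absurd hxE hpE
    · refine ⟨1, h, ?_⟩
      rw [orb_succ, orb_zero]
      exact ph_next ω p
  have hRvE : ∀ f ∈ Rv, f ∉ Bx z0 e := by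
    intro f hf hfe
    obtain ⟨j, hj, hjA⟩ := Pool.Agent.H12.Inst.ask_of_rev hS.ent.tip hIns hf.1 hf.2
    exact hfirst.2 j hj f hfe hjA
  have hRvO : ∀ f ∈ Rv, f ∉ Out7 C p v z0 R t b k e y := fun f hf h => hOrev f (hOutO h) hf.2
  have hf3Rv : f3 ∈ Rv := ⟨(Finset.mem_sdiff.1 (comp_sub _ _ hf3Z)).1, hf3R⟩
  obtain ⟨i1, i2, hi1, hi1b, hi2b, hi2, hl, hr, hoff, -⟩ := hrun C U ω p v z0 R t b k e y hS Rv
    (fun f hf => hf.1) hRvc hpRv ⟨f3, hf3Rv, _, hxE, hf3a⟩ hRvE hRvO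
  have hz0e : z0 ∈ Bx z0 e := by
    rw [Pool.Agent.H75.Lv.mem_Bx, sub_self, sub_self, abs_zero]
    omega
  have hEU : ∀ f ∈ Bx z0 e, f ∈ U := fun f hf => hS.ent.box (end_box hS hf)
  -- the run
  set m : Set Fc := {f | C.Y f = -k ∧ i1 ≤ C.X f ∧ C.X f ≤ i2} with hm
  have hmM : ∀ f ∈ m, f ∈ M7 C t b k := by
    rintro f ⟨h1, h2, h3⟩
    exact ⟨h1, by omega, by omega⟩
  have hmRv : ∀ f ∈ m, f ∉ Rv := by
    rintro f ⟨h1, h2, h3⟩ hf
    have := hoff (C.X f) h2 h3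
    rw [← h1, C.pt_XY] at this
    exact this hf
  have hmB : ∀ f ∈ m, f ∈ Bx v R := by
    rintro f ⟨h1, h2, h3⟩
    rw [C.mem_Bx]
    simp only [abs_le] at *
    omega
  have hmU : ∀ f ∈ m, f ∈ U := fun f hf => hS.ent.box (hmB f hf)
  set Sf : Set Fc := {a | a ∉ Rv ∧ ¬ (C.Y a = -k ∧ i1 ≤ C.X a ∧ C.X a ≤ i2)} with hSf
  -- the closure of `O`
  have hclos : ∀ f ∈ O, ∀ g ∈ U, adjF f g → g ∉ Bx (ph p) (40 * t) → g ∉ Bx v R → g ∈ O := by
    intro f hf g hg hfg hgb hgR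
    have hgK : g ∈ U \ K := by
      rw [hK, Finset.mem_sdiff, Finset.mem_union, Finset.mem_union]
      refine ⟨hg, ?_⟩
      rintro ((h | h) | h)
      · rcases hβ g h with h' | h'
        · exact hgb h'
        · exact hgR (strip_box hS (Or.inl h'))
      · rcases hα g h with h' | h'
        · exact hgb h'
        · exact hgR (strip_box hS (Or.inr h'))
      · exact hgR (end_box hS h)
    exact ⟨hgK, hf.2.step (by exact_mod_cast hgK) hfg⟩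
  have habove := hpth C U ω p v z0 R t b k e y hS O hOutO hclos
  have hOS : ∀ a, a ∈ O \ M7 C t b k → a ∈ Sf := by
    rintro a ⟨ha, ha'⟩
    exact ⟨fun h => hOrev a ha h.2, fun h => ha' (hmM a h)⟩
  have hnU : ∀ a, a ∉ U → a ∈ Sf := fun a ha => ⟨fun h => ha h.1, fun h => ha (hmU a h)⟩
  -- faces around the middle of the mouth
  have hrow : ∀ f, (C.X f = b ∨ C.X f = b + 1) → -k - 1 ≤ C.Y f → C.Y f ≤ -k + 1 →
      f ∈ Out7 C p v z0 R t b k e y := by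
    intro f h1 h2 h3
    have := hO1 (C.X f) (C.Y f) (by omega) (by omega) (by omega) (by omega)
    rwa [C.pt_XY] at this
  have hrowRv : ∀ f, (C.X f = b ∨ C.X f = b + 1) → -k - 1 ≤ C.Y f → C.Y f ≤ -k + 1 → f ∉ Rv :=
    fun f h1 h2 h3 h => hRvO f h (hrow f h1 h2 h3)
  have hstep : ∀ (j : ℤ), (j = -k + 1 ∨ j = -k - 1) → ∀ f, C.Y f = j →
      (C.X f = b ∨ C.X f = b + 1) → Jn Sf f (C.pt b j) := by
    intro j hj f h1 h2
    rcases h2 with h2 | h2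
    · have : f = C.pt b j := C.ext (by rw [h2, C.X_pt]) (by rw [h1, C.Y_pt])
      rw [this]; exact Jn.refl _
    · apply Jn.single
      · refine ⟨hrowRv _ (Or.inl (C.X_pt _ _)) (by rw [C.Y_pt]; omega) (by rw [C.Y_pt]; omega), ?_⟩
        rw [C.Y_pt]
        rintro ⟨h, -⟩
        omega
      · exact C.unit_x (by rw [C.X_pt]; omega) (by rw [C.Y_pt, h1])
  have htop : ∀ c' : Bool, ∃ g x, Jn (O \ M7 C t b k) (C.pt b (-k + 1)) g ∧ x ∉ U ∧ adjF g x ∧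
      ω x = c' ∧ Jn Sf (C.pt b (-k + 1)) x := by
    intro c'
    obtain ⟨g, x, h1, h2, h3, h4⟩ := habove c'
    exact ⟨g, x, h1, h2, h3, h4, (h1.mono hOS).step (hnU x h2) h3⟩
  set S4 : Set Fc := {f | (f ∈ Out7 C p v z0 R t b k e y ∨ f ∈ Bx z0 e) ∧ f ∉ M7 C t b k ∧
    ∀ x, C.X x = e → -2 * k - 2 * t ≤ C.Y x → C.Y x ≤ -2 * k + 2 * t → f ∉ Bx x (e / 4)} with hS4
  have hS4u : ∀ a ∈ S4, a ∈ U ∧ a ∉ Rev ω p i := by
    rintro a ⟨h | h, -, -⟩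
    · exact ⟨(hOK a (hOutO h)).1, hOrev a (hOutO h)⟩
    · exact ⟨hEU a h, fun h' => hRvE a ⟨hEU a h, h'⟩ h⟩
  have hS4S : ∀ a ∈ S4, a ∈ Sf := by
    intro a ha
    exact ⟨fun h => (hS4u a ha).2 h.2, fun h => ha.2.1 (hmM a h)⟩
  have hbot : ∀ f, C.Y f = -k - 1 → (C.X f = b ∨ C.X f = b + 1) → f ∉ Rv ∧ Jn Sf f z0 := by
    intro f h1 h2
    exact ⟨hrowRv f h2 (by omega) (by omega),
      (hstep _ (Or.inr rfl) f h1 h2).trans (hO4.mono hS4S)⟩
  have hrunU : ∀ j, i1 ≤ j → j ≤ i2 → C.pt j (-k) ∈ m := by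
    intro j h1 h2
    exact ⟨C.Y_pt _ _, by rw [C.X_pt]; exact h1, by rw [C.X_pt]; exact h2⟩
  -- LOOP in `U`
  have loopU := Pool.Agent.H7.F5.loop C U Rv i1 i2 b (-k) z0 hUdom (fun f hf => hf.1) hRvc hi1b
    (by omega) hl hr (fun j h1 h2 => hmU _ (hrunU j h1 h2)) hoff
    (fun f h1 h2 => ⟨hrowRv f h2 (by omega) (by omega), by
      obtain ⟨g, x, -, h3, -, -, h4⟩ := htop true
      exact ⟨x, h3, (hstep _ (Or.inl rfl) f h1 h2).trans h4⟩⟩)
    hbot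
  -- LOOP in the big box
  have hR0 : 0 < R := by omega
  have hdomH : IsDom (Bx v (8 * R)) := by
    have := Pool.Agent.H58.TA.isDom_Bx v (8 * R).toNat
    rw [← Pool.Agent.H58.TA.lbx_eq, Int.toNat_of_nonneg (by omega)] at this
    exact this
  have hpB : ph p ∈ Bx v R := by
    rw [C.mem_Bx, hS.ent.x]
    refine ⟨?_, hS.ent.y1⟩
    rw [show C.X v + R - C.X v = R by ring, abs_of_pos hR0]
  have hconn : ∀ f ∈ Bx v R, Jn {x | x ∈ U ∧ x ∈ Bx v R} v f := by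
    intro f hf
    refine (Pool.Agent.H12.Inst.Bx_conn v R f hf).mono ?_
    intro a ha
    have ha' : a ∈ Bx v R := by exact_mod_cast ha
    exact ⟨hS.ent.box ha', ha'⟩
  have hRvH : ∀ f ∈ Rv, f ∈ Bx v (8 * R) := by
    intro f hf
    by_contra hfH
    obtain ⟨j, hj, hjA⟩ := Pool.Agent.H12.Inst.ask_of_rev hS.ent.tip hIns hf.1 hf.2
    have eR : ((R.toNat : ℕ) : ℤ) = R := Int.toNat_of_nonneg (by omega)
    have e8 : (((8 * R).toNat : ℕ) : ℤ) = 8 * R := Int.toNat_of_nonneg (by omega)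
    have hsub : {x | x ∈ U ∧ x ∈ Bx v R} ⊆ {x | x ∈ U ∧ x ∈ Pool.Agent.H58.TA.Bx v R.toNat} := by
      rintro x ⟨h1, h2⟩
      refine ⟨h1, ?_⟩
      rw [← Pool.Agent.H58.TA.lbx_eq, eR]
      exact h2
    refine Pool.Agent.H58.TA.rings (a0 := R.toNat) hS.ent.st hS.ent.tip (by omega) (by omega)
      (by omega) (by omega) hR.1 hR.2 (v := v) (hS.ent.box ?_) ?_ ((hconn _ hpB).mono hsub) hj hjA ?_
      (i' := i) (g := ph (orb ω p i)) ⟨hIns, rfl, hEU _ hxE, hxR⟩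
      ((hconn _ (end_box hS hxE)).mono hsub)
    · rw [Pool.Agent.H75.Lv.mem_Bx, sub_self, sub_self, abs_zero]; omega
    · rw [← Pool.Agent.H58.TA.lbx_eq, eR, Pool.Agent.H75.Lv.mem_Bx, sub_self, sub_self, abs_zero]
      omega
    · rw [← Pool.Agent.H58.TA.lbx_eq, e8]
      exact hfH
  have hbig : ∀ f ∈ Bx v R, f ∈ Bx v (8 * R) := by
    intro f hf
    rw [Pool.Agent.H75.Lv.mem_Bx] at hf ⊢
    omega
  have loopH := Pool.Agent.H7.F5.loop C (Bx v (8 * R)) Rv i1 i2 b (-k) z0 hdomH hRvH hRvc hi1b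
    (by omega) hl hr (fun j h1 h2 => hbig _ (hmB _ (hrunU j h1 h2))) hoff
    (fun f h1 h2 => ⟨hrowRv f h2 (by omega) (by omega), by
      obtain ⟨g, x, -, h3, -, -, h4⟩ := htop true
      obtain ⟨g', hg1, hg2⟩ := far_face U (Bx v (8 * R))
      refine ⟨g', hg2, ((hstep _ (Or.inl rfl) f h1 h2).trans h4).trans ?_⟩
      have h5 : Jn {a | a ∉ U} x g' := hUdom.cconn x h3 g' hg1
      exact h5.mono hnU⟩)
    hbot
  -- the face ahead at the first visit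
  set q : Pos := orb ω p i with hq
  obtain ⟨hf3X, hf3Y1, hf3Y2⟩ := adj_end hS (hRvE f3 hf3Rv) (hRvO f3 hf3Rv) hxE hf3a
  have hxX : C.X (ph q) = e := by
    have h1 := C.king hf3a
    have h2 := hxE
    rw [C.mem_Bx, ← hS.c, C.X_c, C.Y_c] at h2
    simp only [abs_le] at h1 h2
    omega
  have hxY : -2 * k - 2 * t ≤ C.Y (ph q) ∧ C.Y (ph q) ≤ -2 * k + 2 * t := by
    have h1 := C.king hf3a
    simp only [abs_le] at h1
    omega
  -- the unexplored component of `z0`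
  set D : Finset Fc := unx U ω p i z0 with hD
  have hz0U : z0 ∈ U := hEU z0 hz0e
  have hz0R : z0 ∉ Rev ω p i := fun h => hRvE z0 ⟨hz0U, h⟩ hz0e
  have hz0D : z0 ∈ D := Pool.Agent.H11.Lv.unx_self hz0U hz0R
  have hDmem : ∀ f, Jn {a | a ∈ U ∧ a ∉ Rev ω p i} z0 f → f ∈ D := by
    intro f hf
    have h1 : Jn (↑(U \ expl U ω p i) : Set Fc) z0 f := by
      refine hf.mono ?_
      intro a ha
      exact_mod_cast Pool.Agent.H11.Lv.mem_sd.2 ha
    have h2 := h1.mem (by exact_mod_cast Pool.Agent.H11.Lv.mem_sd.2 ⟨hz0U, hz0R⟩)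
    exact mem_comp.2 ⟨by exact_mod_cast h2, h1⟩
  have hDsub : ∀ f ∈ D, f ∈ U ∧ f ∉ Rev ω p i := fun f hf => Pool.Agent.H11.Lv.mem_unx hf
  have hDjn : ∀ {T : Set Fc} {f : Fc}, (∀ a, a ∈ T → a ∈ U ∧ a ∉ Rev ω p i) → Jn T z0 f →
      Jn {a | a ∈ D ∧ a ∈ T} z0 f := by
    intro T f hT' hf
    have h1 := jn_and (T := {a | a ∈ D}) hf (fun a ha => hDmem a (ha.mono hT'))
    refine h1.mono ?_
    rintro a ⟨ha1, ha2⟩
    exact ⟨ha2, ha1⟩
  have hED : ∀ f ∈ Bx z0 e, f ∈ D := by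
    intro f hf
    apply hDmem
    refine (Pool.Agent.H12.Inst.Bx_conn z0 e f hf).mono ?_
    intro a ha
    have ha' : a ∈ Bx z0 e := by exact_mod_cast ha
    exact ⟨hEU a ha', fun h => hRvE a ⟨hEU a ha', h⟩ ha'⟩
  have hqD : ph q ∈ D := hED _ hxE
  have hSt : St D ω := Pool.Agent.H11.Lv.sti' U ω p hS.ent.st hS.ent.tip i z0 hz0U hz0R
  have hTip : IsTip D ω q := Pool.Agent.H11.Lv.tip_unx hS.ent.tip.2.2.2 hqD
  -- paths from `z0`
  have hb4 : C.pt b (-k - 1) ∈ S4 := by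
    refine ⟨Or.inl (hrow _ (Or.inl (C.X_pt _ _)) (by rw [C.Y_pt]) (by rw [C.Y_pt]; omega)), ?_, ?_⟩
    · rintro ⟨h, -⟩
      rw [C.Y_pt] at h
      omega
    · intro x hx1' hx2' hx3' h
      rw [C.mem_Bx, C.X_pt, hx1'] at h
      simp only [abs_le] at h
      omega
  have hz4 : Jn S4 z0 (C.pt b (-k - 1)) := hO4.symm hb4
  have hmb : C.pt b (-k) ∈ m := hrunU b hi1b (by omega)
  have hmm : ∀ f ∈ m, Jn m (C.pt b (-k)) f := by
    rintro f ⟨h1, h2, h3⟩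
    have h4 : Jn m (C.pt b (-k)) (C.pt (C.X f) (-k)) := by
      apply C.jn_row
      intro j h5 h6
      exact hrunU j (by omega) (by omega)
    have h5 : C.pt (C.X f) (-k) = f := by rw [← h1, C.pt_XY]
    rwa [h5] at h4
  have hmR : ∀ f ∈ m, f ∉ Rev ω p i := fun f hf h => hmRv f hf ⟨hmU f hf, h⟩
  have hbm : adjF (C.pt b (-k - 1)) (C.pt b (-k)) := by
    apply C.unit_y
    · rw [C.Y_pt, C.Y_pt]; omega
    · rw [C.X_pt, C.X_pt]
  have hzm : ∀ f ∈ m, Jn {a | a ∈ S4 ∨ a ∈ m} z0 f := by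
    intro f hf
    refine ((hz4.mono (fun a ha => Or.inl ha)).step (Or.inr hmb) hbm).trans ?_
    exact (hmm f hf).mono (fun a ha => Or.inr ha)
  have hT1 : ∀ a, a ∈ {a | a ∈ S4 ∨ a ∈ m} → a ∈ U ∧ a ∉ Rev ω p i := by
    rintro a (h | h)
    · exact hS4u a h
    · exact ⟨hmU a h, hmR a h⟩
  have hmD : ∀ f ∈ m, f ∈ D := fun f hf => hDmem f ((hzm f hf).mono hT1)
  have hmx : ∀ f ∈ m, f ∉ Bx (ph q) (e / 4) := by
    rintro f ⟨h1, h2, h3⟩ h
    rw [C.mem_Bx, hxX] at h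
    simp only [abs_le] at h
    omega
  -- in the component, off the run
  have hDS : ∀ a, a ∈ D ∧ a ∉ m → a ∈ Sf := by
    rintro a ⟨h1, h2⟩
    exact ⟨fun h => (hDsub a h1).2 h.2, fun h => h2 h⟩
  -- the arcs meet the run
  have harc : ∀ c' : Bool, ∃ g ∈ m, ∃ x, x ∉ D ∧ adjF g x ∧ ω x = c' := by
    intro c'
    by_contra hcon
    push Not at hcon
    obtain ⟨g, x, h1, h2, h3, h4, -⟩ := htop c'
    have hgD : g ∈ D := by
      apply hDmem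
      have h5 : Jn {a | a ∈ U ∧ a ∉ Rev ω p i} z0 (C.pt b (-k)) := (hzm _ hmb).mono hT1
      have h6 : adjF (C.pt b (-k)) (C.pt b (-k + 1)) := by
        apply C.unit_y
        · rw [C.Y_pt, C.Y_pt]; omega
        · rw [C.X_pt, C.X_pt]
      have h7 : C.pt b (-k + 1) ∈ O :=
        hOutO (hrow _ (Or.inl (C.X_pt _ _)) (by rw [C.Y_pt]; omega) (by rw [C.Y_pt]))
      refine (h5.step ⟨(hOK _ h7).1, hOrev _ h7⟩ h6).trans (h1.mono ?_)
      rintro a ⟨ha, -⟩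
      exact ⟨(hOK a ha).1, hOrev a ha⟩
    have hxD : x ∉ D := fun h => h2 (hDsub x h).1
    have hqc : ∃ x', x' ∉ D ∧ adjF (ph q) x' ∧ ω x' = c' := by
      cases c'
      · exact ⟨pr q, hTip.2.2.1, adj_hr q, hTip.2.2.2.2⟩
      · exact ⟨pl q, hTip.2.1, adj_hl q, hTip.2.2.2.1⟩
    have hj := Pool.Agent.H11.Tri.arcC D ω hSt q hTip c' (ph q) g hqD hgD hqc ⟨x, hxD, h3, h4⟩
    have hj2 : Jn Sf (ph q) g := by
      refine hj.mono ?_
      rintro a ⟨ha, x', hx1', hx2', hx3'⟩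
      exact hDS a ⟨ha, fun ham => hcon a ham x' hx1' hx2' hx3'⟩
    have hj3 : Jn Sf z0 (ph q) := by
      refine (Pool.Agent.H12.Inst.Bx_conn z0 e _ hxE).mono ?_
      intro a ha
      have ha' : a ∈ Bx z0 e := by exact_mod_cast ha
      refine hDS a ⟨hED a ha', ?_⟩
      rintro ⟨h5, h6, h7⟩
      rw [C.mem_Bx, ← hS.c, C.X_c, C.Y_c] at ha'
      simp only [abs_le] at ha'
      omega
    exact h2 (loopU g x (hj3.trans hj2) h3)
  refine ⟨i, hfirst, hSt, hTip, fun f hf => hED f hf, hxE, hxX, ?_, ?_⟩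
  · intro c'
    obtain ⟨g, hg, x, hx1', hx2', hx3'⟩ := harc c'
    refine ⟨g, x, ?_, hx1', hx2', hx3'⟩
    refine (hDjn hT1 (hzm g hg)).mono ?_
    rintro a ⟨ha, h | h⟩
    · exact ⟨ha, h.2.2 _ hxX hxY.1 hxY.2⟩
    · exact ⟨ha, hmx a h⟩
  · refine ⟨m, hmD, ?_, ?_, ?_, ?_⟩
    · intro f hf g hg
      exact ((hmm f hf).symm hmb).trans (hmm g hg)
    · rintro f ⟨h1, h2, h3⟩
      exact ⟨h1, by omega, by omega⟩
    · exact harc true
    · intro f hf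
      have hf' : Jn Sf z0 f := hf.mono (fun a ha => hDS a ha)
      rcases Relation.ReflTransGen.cases_tail hf' with h | ⟨g, h1, h2⟩
      · rw [h]; exact hbig _ (end_box hS hz0e)
      · exact loopH g f h1 h2.2

end Pool.Agent.H53.Per
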