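import Pool.Agent.H53.Per.Det
import Pool.Agent.H50.Per.Pth7
import Pool.Agent.H7.F5.Run7
import Pool.Agent.H7.F5.Conf
import Pool.Agent.H10.F5.Pock

set_option autoImplicit false

/-! MP_2e6055, module F5 (helper53), 5: the deterministic part of F5 with the pocket; left as
hypotheses: COR7 and OUT7. -/

namespace Pool.Agent.H53.Per

open Pool.Agent.H7.UC Pool.Agent.H74.Tri Pool.Agent.H75.Perc Pool.Agent.H75.Lv Pool.Agent.H55.Lane
open Pool.Agent.H52.Tri (AX)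

/-- the run data give the pocket -/
theorem pock_of_res {C : Ch} {U : Finset Fc} {ω : Fc → Bool} {p : Pos} {v z0 : Fc}
    {R t b k e y : ℤ} (hS : Sit7 C U ω p v z0 R t b k e y) {i : ℕ}
    (h : Res7 C U ω p v z0 R t b k e i) {u : ℕ} (hu : 12 * t ≤ u) (hb : e + 4 * u + 4 ≤ b) :
    Pock (unx U ω p i z0) ω z0 (C.pt b (-k)) u (8 * R + e) := by
  obtain ⟨t2, tk, ke, eb, bR, hv1, hv2, hx1, hx2, hx0, hy0, hy1, hy2⟩ := hS.num
  obtain ⟨m, hm1, hm2, hm3, ⟨g, hg, x, hx, hgx, hxb⟩, hm5⟩ := h.run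
  have hz0X : C.X z0 = 0 := by rw [← hS.c, C.X_c]
  have hz0Y : C.Y z0 = 0 := by rw [← hS.c, C.Y_c]
  have hz0e : z0 ∈ Bx z0 e := by
    rw [Pool.Agent.H75.Lv.mem_Bx, sub_self, sub_self, abs_zero]
    omega
  -- faces with small chart abscissa are far from the centre of the annulus
  have hfar : ∀ f : Fc, C.X f ≤ e →
      3 * (u : ℤ) < |f.1 - (C.pt b (-k)).1| ∨ 3 * (u : ℤ) < |f.2 - (C.pt b (-k)).2| := by
    intro f hf
    by_contra hcon
    push Not at hcon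
    have h1 : f ∈ Bx (C.pt b (-k)) (3 * u) := Pool.Agent.H75.Lv.mem_Bx.2 hcon
    rw [C.mem_Bx, C.X_pt] at h1
    have h2 := (abs_le.1 h1.1).1
    omega
  have hbx : ∀ f ∈ Bx z0 e, C.X f ≤ e := by
    intro f hf
    rw [C.mem_Bx, hz0X] at hf
    have h2 := (abs_le.1 hf.1).2
    omega
  refine Pool.Agent.H10.F5.pock8 h.st h.tip hm1 hm2 ?_ hg hx hgx hxb (hfar _ (by rw [h.xX]))
    (h.box hz0e) (hfar _ (by rw [hz0X]; omega)) ?_ ?_
  · intro f hf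
    obtain ⟨h1, h2, h3⟩ := hm3 f hf
    have h4 : f ∈ Bx (C.pt b (-k)) (u - 1) := by
      rw [C.mem_Bx, C.X_pt, C.Y_pt, h1, abs_le, abs_le]
      omega
    have h5 := Pool.Agent.H75.Lv.mem_Bx.1 h4
    omega
  · refine (Pool.Agent.H12.Inst.Bx_conn z0 e _ h.xe).mono ?_
    intro a ha
    have ha' : a ∈ Bx z0 e := by exact_mod_cast ha
    refine ⟨h.box ha', ?_⟩
    rintro ⟨⟨⟨h1, h2⟩, h3, h4⟩, -⟩
    have h5 := hfar a (hbx a ha')
    rcases h5 with h5 | h5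
    · exact absurd h5 (not_lt.2 (abs_le.2 ⟨by omega, by omega⟩))
    · exact absurd h5 (not_lt.2 (abs_le.2 ⟨by omega, by omega⟩))
  · intro f hf
    have h1 := hm5 f hf
    rw [C.mem_Bx] at h1 ⊢
    rw [hz0X, hz0Y]
    simp only [abs_le] at *
    omega

/-- the deterministic part, with everything proved but COR7 and OUT7 -/
theorem detF (hcor : COR7) (hout : OUT7) {C : Ch} {U : Finset Fc} {ω : Fc → Bool} {p : Pos}
    {v z0 : Fc} {R t b k e y : ℤ} (hS : Sit7 C U ω p v z0 R t b k e y) {c : Bool}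
    (hT : T3c C U ω p t y c) (hE : Ev7 C U p t b k e y c ω) (hR : Rgs U v R ω)
    {u : ℕ} (hu : 12 * t ≤ u) (hb : e + 4 * u + 4 ≤ b) :
    ∃ i, First U ω p (Bx z0 e) i ∧ St (unx U ω p i z0) ω ∧ IsTip (unx U ω p i z0) ω (orb ω p i) ∧
      Bx z0 e ⊆ unx U ω p i z0 ∧ ph (orb ω p i) ∈ Bx z0 e ∧
      Pock (unx U ω p i z0) ω z0 (C.pt b (-k)) u (8 * R + e) ∧
      TB (unx U ω p i z0) ω z0 (Bx (ph (orb ω p i)) (e / 4)) := by
  obtain ⟨i, h⟩ := det7 Pool.Agent.H7.F5.conf1 Pool.Agent.H7.F5.conf2 hcor hout (pth7 hout)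
    Pool.Agent.H7.F5.run7 hS hT hE hR
  exact ⟨i, h.first, h.st, h.tip, h.box, h.xe, pock_of_res hS h hu hb, h.tb⟩

end Pool.Agent.H53.Per
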