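import Pool.Agent.H53.Per.Det2
import Pool.Agent.H87.F5.Fin

set_option autoImplicit false

/-! MP_2e6055, module F5 (helper53), 6: helper87's closed statement `DET7` from COR7 and OUT7. -/

namespace Pool.Agent.H53.Per

open Pool.Agent.H7.UC Pool.Agent.H74.Tri Pool.Agent.H75.Perc Pool.Agent.H75.Lv Pool.Agent.H55.Lane

theorem det7_fin (hcor : COR7) (hout : OUT7) : Pool.Agent.H87.F5.DET7 := by
  intro C U ω p v z0 R t b k e y u hS h1 h2 c hc hE hR
  exact detF hcor hout hS hc hE hR h1 h2

end Pool.Agent.H53.Per
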